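import Pool.Agent.Helper61.P3.St4

/-!
Project P3 (MP_cb927e_an), module NUC: numbers.
-/

set_option autoImplicit false

namespace Pool.Agent.Helper15.P3

open MeasureTheory Set Filter Topology
open scoped ENNReal RealInnerProductSpace
open Pool.Agent.Helper61.P3 Pool.Agent.Helper20.RG Pool.Agent.Helper20.EQ
open Pool.Agent.Helper68.LM (Pl BB Bd Av HL ft fm DQ)
open Pool.Agent.Helper68.EP (elt GapP)

private lemma two_rpow_le {x y : ℝ} : (2 : ℝ) ^ x ≤ (2 : ℝ) ^ y ↔ x ≤ y :=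
  Real.rpow_le_rpow_left_iff (by norm_num)

/-- exponentials beat squares -/
private lemma ev (a b c : ℝ) (ha : 0 < a) (hb : 0 ≤ b) (hc : 0 < c) :
    ∃ N : ℕ, ∀ n : ℕ, N ≤ n → a * (1 + b * n) ^ 2 ≤ (2 : ℝ) ^ (c * n) := by
  set r : ℝ := (2 : ℝ) ^ (-c) with hr
  have hr0 : 0 < r := Real.rpow_pos_of_pos (by norm_num) _
  have hr1 : r < 1 := Real.rpow_lt_one_of_one_lt_of_neg (by norm_num) (by linarith)
  have hlim := tendsto_pow_const_mul_const_pow_of_abs_lt_one 2 (r := r)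
    (by rw [abs_of_pos hr0]; exact hr1)
  have hpos : 0 < 1 / (a * (1 + b) ^ 2) := by positivity
  obtain ⟨N, hN⟩ := (hlim.eventually (gt_mem_nhds hpos)).exists_forall_of_atTop
  refine ⟨max N 1, fun n hn => ?_⟩
  have h1 := hN n (le_trans (le_max_left _ _) hn)
  have hn1 : (1 : ℝ) ≤ n := by exact_mod_cast le_trans (le_max_right _ _) hn
  have h2 : r ^ n = (2 : ℝ) ^ (-(c * n)) := by
    rw [hr, ← Real.rpow_natCast, ← Real.rpow_mul (by norm_num)]
    congr 1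
    ring
  have h3 : (2 : ℝ) ^ (-(c * n)) * (2 : ℝ) ^ (c * n) = 1 := by
    rw [← Real.rpow_add (by norm_num)]
    simp
  have hp : 0 < (2 : ℝ) ^ (c * (n : ℝ)) := Real.rpow_pos_of_pos (by norm_num) _
  have h4 : a * (1 + b * n) ^ 2 ≤ a * (1 + b) ^ 2 * (n : ℝ) ^ 2 := by
    have h5 : (1 + b * n) ^ 2 ≤ ((1 + b) * n) ^ 2 := by
      apply pow_le_pow_left₀ (by positivity)
      nlinarith
    calc a * (1 + b * n) ^ 2 ≤ a * ((1 + b) * n) ^ 2 := mul_le_mul_of_nonneg_left h5 ha.le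
      _ = _ := by ring
  rw [h2] at h1
  have h6 : a * (1 + b) ^ 2 * ((n : ℝ) ^ 2 * (2 : ℝ) ^ (-(c * n))) ≤ 1 := by
    have h7 := mul_le_mul_of_nonneg_left h1.le (show 0 ≤ a * (1 + b) ^ 2 by positivity)
    have h8 : a * (1 + b) ^ 2 * (1 / (a * (1 + b) ^ 2)) = 1 := by
      have : a * (1 + b) ^ 2 ≠ 0 := by positivity
      field_simp
    linarith
  have h9 := mul_le_mul_of_nonneg_right h6 hp.le
  have h10 : a * (1 + b) ^ 2 * ((n : ℝ) ^ 2 * (2 : ℝ) ^ (-(c * n))) * (2 : ℝ) ^ (c * (n : ℝ)) =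
      a * (1 + b) ^ 2 * (n : ℝ) ^ 2 := by
    calc _ = a * (1 + b) ^ 2 * (n : ℝ) ^ 2 * ((2 : ℝ) ^ (-(c * n)) * (2 : ℝ) ^ (c * (n : ℝ))) := by
          ring
      _ = _ := by rw [h3, mul_one]
  rw [h10, one_mul] at h9
  linarith

private lemma four_zpow (n : ℕ) : (4 : ℝ) ^ (1 - (n : ℤ)) = (2 : ℝ) ^ ((2 : ℝ) - 2 * n) := by
  have h4 : (4 : ℝ) = (2 : ℝ) ^ (2 : ℝ) := by norm_num
  rw [← Real.rpow_intCast, h4, ← Real.rpow_mul (by norm_num)]
  congr 1
  push_cast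
  ring

private lemma four_le (n : ℕ) : (4 : ℝ) ^ (1 - (n : ℤ)) ≤ 4 := by
  rw [four_zpow]
  have h4 : (4 : ℝ) = (2 : ℝ) ^ (2 : ℝ) := by norm_num
  rw [h4, two_rpow_le]
  have : (0 : ℝ) ≤ n := Nat.cast_nonneg n
  linarith

private lemma key (V x : ℝ) (u n ρ : ℕ) (h : (2 : ℝ) ^ (-x) ≤ V / 22000) :
    (2 : ℝ) ^ ((u : ℝ) + ρ - n - ((n : ℝ) + ρ) / 100 - x) ≤ mt V u n ρ := by
  unfold Pool.Agent.Helper61.P3.mt
  have h1 : (2 : ℝ) ^ ((u : ℝ) + ρ - n - ((n : ℝ) + ρ) / 100 - x) =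
      (2 : ℝ) ^ (-x) * (2 : ℝ) ^ ((u : ℝ) + ρ - n - ((n : ℝ) + ρ) / 100) := by
    rw [← Real.rpow_add (by norm_num)]
    congr 1
    ring
  rw [h1]
  exact mul_le_mul_of_nonneg_right h (Real.rpow_pos_of_pos (by norm_num) _).le

theorem hNUC : Pool.Agent.Helper61.P3.StNUC := by
  obtain ⟨N₁, hN₁⟩ := ev 16 8 (1 / 20000) (by norm_num) (by norm_num) (by norm_num)
  obtain ⟨N₃, hN₃⟩ := ev 352000 1 (97 / 4000000) (by norm_num) (by norm_num) (by norm_num)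
  refine ⟨max (max N₁ N₃) 50000, by omega, ?_, ?_, ?_⟩
  · intro V u n ρ hu hn hV1 hV2 hmt
    have huR : (50000 : ℝ) ≤ u := by exact_mod_cast le_trans (le_max_right _ _) hu
    have hnR : (10000 : ℝ) * n < u := by exact_mod_cast hn
    have hρ0 : (0 : ℝ) ≤ ρ := Nat.cast_nonneg ρ
    have hn0 : (0 : ℝ) ≤ n := Nat.cast_nonneg n
    have hk := key V ((u : ℝ) / 20000 + 15) u n ρ (by
      have h1 : (2 : ℝ) ^ (-((u : ℝ) / 20000 + 15)) =
          (2 : ℝ) ^ (-((u : ℝ) / 20000)) * (2 : ℝ) ^ (-(15 : ℝ)) := by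
        rw [← Real.rpow_add (by norm_num)]
        congr 1
        ring
      have h2 : (2 : ℝ) ^ (-(15 : ℝ)) ≤ 1 / 22000 := by
        rw [Real.rpow_neg (by norm_num), show (15 : ℝ) = ((15 : ℕ) : ℝ) by norm_num,
          Real.rpow_natCast]
        norm_num
      rw [h1]
      have h3 : (0 : ℝ) < (2 : ℝ) ^ (-(15 : ℝ)) := Real.rpow_pos_of_pos (by norm_num) _
      have hV0 : 0 < V := lt_of_lt_of_le (Real.rpow_pos_of_pos (by norm_num) _) hV1
      calc (2 : ℝ) ^ (-((u : ℝ) / 20000)) * (2 : ℝ) ^ (-(15 : ℝ))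
          ≤ V * (1 / 22000) := mul_le_mul hV1 h2 h3.le hV0.le
        _ = V / 22000 := by ring)
    have h1 : (2 : ℝ) ^ (u + 1) = (2 : ℝ) ^ ((u : ℝ) + 1) := by
      rw [← Real.rpow_natCast]
      congr 1
      push_cast
      ring
    rw [h1] at hmt
    have h2 := two_rpow_le.1 (hk.trans hmt)
    refine ⟨?_, ?_, ?_, four_le n⟩
    · have h3 : (1000 : ℝ) * ρ ≤ u := by linarith
      exact_mod_cast h3
    · have h3 : (2 : ℝ) ^ ((u : ℝ) + ρ - n - ((n : ℝ) + ρ) / 100 - ((u : ℝ) / 20000 + 15)) =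
          2 * (2 : ℝ) ^ ((u : ℝ) + ρ - n - ((n : ℝ) + ρ) / 100 - ((u : ℝ) / 20000 + 15) - 1) := by
        have : (2 : ℝ) * (2 : ℝ) ^
            ((u : ℝ) + ρ - n - ((n : ℝ) + ρ) / 100 - ((u : ℝ) / 20000 + 15) - 1) =
            (2 : ℝ) ^ (1 : ℝ) * (2 : ℝ) ^
            ((u : ℝ) + ρ - n - ((n : ℝ) + ρ) / 100 - ((u : ℝ) / 20000 + 15) - 1) := by
          rw [Real.rpow_one]
        rw [this, ← Real.rpow_add (by norm_num)]
        congr 1
        ring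
      rw [h3] at hk
      have h4 : (2 : ℝ) ^ ((1999 / 2000 : ℝ) * u) ≤
          (2 : ℝ) ^ ((u : ℝ) + ρ - n - ((n : ℝ) + ρ) / 100 - ((u : ℝ) / 20000 + 15) - 1) := by
        rw [two_rpow_le]
        linarith
      linarith
    · rw [four_zpow, two_rpow_le]
      linarith
  · intro s u hu hs
    have h1 := hN₁ u (by omega)
    have hsR : (s : ℝ) ≤ 8 * u := by exact_mod_cast hs
    have hs0 : (0 : ℝ) ≤ s := Nat.cast_nonneg s
    unfold Vs
    constructor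
    · rw [Real.rpow_neg (by norm_num), ← one_div]
      apply one_div_le_one_div_of_le (by positivity)
      have h2 : (16 : ℝ) * (1 + s) ^ 2 ≤ 16 * (1 + 8 * u) ^ 2 := by
        have : (1 + (s : ℝ)) ^ 2 ≤ (1 + 8 * u) ^ 2 := pow_le_pow_left₀ (by positivity) (by linarith) 2
        linarith
      have h3 : (1 / 20000 : ℝ) * u = (u : ℝ) / 20000 := by ring
      rw [h3] at h1
      linarith
    · rw [div_le_one (by positivity)]
      nlinarith
  · intro s u n ρ hs hn hmt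
    have h1 := hN₃ s (by omega)
    have hnR : (40000 : ℝ) * n ≤ s := by exact_mod_cast hn
    have hρ0 : (0 : ℝ) ≤ ρ := Nat.cast_nonneg ρ
    have hn0 : (0 : ℝ) ≤ n := Nat.cast_nonneg n
    have hs0 : (0 : ℝ) ≤ s := Nat.cast_nonneg s
    have hk := key (Vs s) ((97 / 4000000 : ℝ) * s) u n ρ (by
      unfold Vs
      rw [Real.rpow_neg (by norm_num)]
      have h2 : (1 / (16 * (1 + (s : ℝ)) ^ 2)) / 22000 = (352000 * (1 + 1 * (s : ℝ)) ^ 2)⁻¹ := by
        field_simp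
        ring
      rw [h2]
      exact inv_anti₀ (by positivity) h1)
    have h2 : (2 : ℝ) ^ u = (2 : ℝ) ^ (u : ℝ) := (Real.rpow_natCast _ _).symm
    rw [h2] at hmt
    have h3 := two_rpow_le.1 (hk.trans hmt)
    refine ⟨?_, ?_, ?_, four_le n⟩
    · have h4 : (20000 : ℝ) * ρ ≤ s := by linarith
      exact_mod_cast h4
    · refine le_trans ?_ hk
      rw [two_rpow_le]
      linarith
    · rw [four_zpow, two_rpow_le]
      linarith

end Pool.Agent.Helper15.P3
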